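import Pool.Agent.Helper750.Sig

set_option autoImplicit false

namespace Pool.Agent.Results.MP_ae071c_lc.NoMinimalDegree

open Pool.Agent.Helper750.Eff Pool.Agent.Helper750.Basis Pool.Agent.Helper750.KL
  Pool.Agent.Helper750.Sig

/-- `S` is a lightface Sigma-1-1 subset of the square of Baire space: it is the projection along
a real `w` of the set of all triples all of whose finite initial segments satisfy one computable
predicate. -/
def IsSigma11 (S : (ℕ → ℕ) → (ℕ → ℕ) → Prop) : Prop :=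
  ∃ R : List ℕ × List ℕ × List ℕ → Bool, Computable R ∧
    ∀ x y : ℕ → ℕ, S x y ↔ ∃ w : ℕ → ℕ, ∀ n : ℕ,
      R (List.ofFn (fun i : Fin n => x i.val), List.ofFn (fun i : Fin n => y i.val),
         List.ofFn (fun i : Fin n => w i.val)) = true

/-- `S` is Hyp, that is lightface Delta-1-1. -/
def IsHyp (S : (ℕ → ℕ) → (ℕ → ℕ) → Prop) : Prop :=
  IsSigma11 S ∧ IsSigma11 (fun x y => ¬ S x y)

/-- The total function `f` is Hyp: its graph is Hyp. -/
def IsHypFun (f : (ℕ → ℕ) → (ℕ → ℕ)) : Prop := IsHyp (fun x y => f x = y)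

/-- `E` is a Hyp equivalence relation on the reals. -/
def IsHypEquiv (E : (ℕ → ℕ) → (ℕ → ℕ) → Prop) : Prop := Equivalence E ∧ IsHyp E

/-- `E` is Hyp reducible to `F`. -/
def HypRed (E F : (ℕ → ℕ) → (ℕ → ℕ) → Prop) : Prop :=
  ∃ f : (ℕ → ℕ) → (ℕ → ℕ), IsHypFun f ∧ ∀ x y, E x y ↔ F (f x) (f y)

/-- The degree of `E` is strictly below the degree of `F`. -/
def StrictlyBelow (E F : (ℕ → ℕ) → (ℕ → ℕ) → Prop) : Prop := HypRed E F ∧ ¬ HypRed F E

/-- The relation with a single class, of degree `1`. -/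
def oneClass : (ℕ → ℕ) → (ℕ → ℕ) → Prop := fun _ _ => True

/-- `E` represents a minimal degree: it is strictly above `1`, and no degree lies strictly between
`1` and the degree of `E`. -/
def IsMinimal (E : (ℕ → ℕ) → (ℕ → ℕ) → Prop) : Prop :=
  IsHypEquiv E ∧ StrictlyBelow oneClass E ∧
    ¬ ∃ F, IsHypEquiv F ∧ StrictlyBelow oneClass F ∧ StrictlyBelow F E

theorem isSigma11_iff {S : (ℕ → ℕ) → (ℕ → ℕ) → Prop} :
    IsSigma11 S ↔ S11 (fun p : (ℕ → ℕ) × (ℕ → ℕ) => S p.1 p.2) := sigC_iff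

theorem isHyp_iff {S : (ℕ → ℕ) → (ℕ → ℕ) → Prop} :
    IsHyp S ↔ D11 (fun p : (ℕ → ℕ) × (ℕ → ℕ) => S p.1 p.2) :=
  and_congr isSigma11_iff isSigma11_iff

theorem isHypFun_of {f : (ℕ → ℕ) → (ℕ → ℕ)}
    (hf : S11 (fun p : (ℕ → ℕ) × (ℕ → ℕ) => f p.1 = p.2)) : IsHypFun f :=
  isHyp_iff.mpr ⟨hf, graph_not hf⟩

theorem isHypFun_gf {f : (ℕ → ℕ) → (ℕ → ℕ)} (hf : GF f) : IsHypFun f :=
  isHypFun_of (S11.cl (Cl_eq (hf.comp GF.fst) GF.snd))

theorem s11_graph {f : (ℕ → ℕ) → (ℕ → ℕ)} (hf : IsHypFun f) :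
    S11 (fun p : (ℕ → ℕ) × (ℕ → ℕ) => f p.1 = p.2) := (isHyp_iff.mp hf).1

/-- Every degree strictly above `1` has a degree strictly between `1` and it. -/
theorem exists_between (E : (ℕ → ℕ) → (ℕ → ℕ) → Prop) (hE : IsHypEquiv E)
    (h1 : StrictlyBelow oneClass E) :
    ∃ F, IsHypEquiv F ∧ StrictlyBelow oneClass F ∧ StrictlyBelow F E := by
  classical
  obtain ⟨hEq, hHyp⟩ := hE
  have hD : D11 (fun p : (ℕ → ℕ) × (ℕ → ℕ) => E p.1 p.2) := isHyp_iff.mp hHyp
  let O : ℕ → ℕ := fun _ => 0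
  let X : (ℕ → ℕ) → Prop := fun x => ¬ E x O
  have hXD : D11 X := (hD.comp (F := fun x : ℕ → ℕ => (x, O)) (GF.pair GF.id GF.zero)).not
  have hXO : ¬ X O := fun h => h (hEq.refl O)
  have hXne : ∃ x, X x := by
    by_contra hcon
    push Not at hcon
    apply h1.2
    refine ⟨fun x => x, isHypFun_gf GF.id, fun x y => ?_⟩
    simp only [oneClass, iff_true]
    have hx : E x O := not_not.mp (hcon x)
    have hy : E y O := not_not.mp (hcon y)
    exact hEq.trans hx (hEq.symm hy)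
  obtain ⟨Y, hYcl, ⟨y0, hy0⟩, hY⟩ := basic hXD.1 hXne
  have hYD : D11 Y := D11.cl hYcl
  let A : (ℕ → ℕ) → Prop := fun p => X (evn p) ∧ Y (odd p)
  have hAD : D11 A := (hXD.comp (GF.evn GF.id)).and (hYD.comp (GF.odd GF.id))
  let F : (ℕ → ℕ) → (ℕ → ℕ) → Prop := fun p q =>
    (A p ∧ A q ∧ E (evn p) (evn q)) ∨ (¬ A p ∧ ¬ A q)
  have hFD : D11 (fun r : (ℕ → ℕ) × (ℕ → ℕ) => F r.1 r.2) := by
    have hA1 : D11 (fun r : (ℕ → ℕ) × (ℕ → ℕ) => A r.1) := hAD.comp GF.fst
    have hA2 : D11 (fun r : (ℕ → ℕ) × (ℕ → ℕ) => A r.2) := hAD.comp GF.snd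
    have hE' : D11 (fun r : (ℕ → ℕ) × (ℕ → ℕ) => E (evn r.1) (evn r.2)) :=
      hD.comp (F := fun r : (ℕ → ℕ) × (ℕ → ℕ) => (evn r.1, evn r.2))
        (GF.pair (GF.evn GF.fst) (GF.evn GF.snd))
    exact (hA1.and (hA2.and hE')).or (hA1.not.and hA2.not)
  have hFeq : Equivalence F := by
    refine ⟨fun p => ?_, fun {p q} h => ?_, fun {p q r} h h' => ?_⟩
    · by_cases hp : A p
      · exact Or.inl ⟨hp, hp, hEq.refl _⟩
      · exact Or.inr ⟨hp, hp⟩
    · rcases h with ⟨h1, h2, h3⟩ | ⟨h1, h2⟩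
      · exact Or.inl ⟨h2, h1, hEq.symm h3⟩
      · exact Or.inr ⟨h2, h1⟩
    · rcases h with ⟨h1, h2, h3⟩ | ⟨h1, h2⟩ <;> rcases h' with ⟨k1, k2, k3⟩ | ⟨k1, k2⟩
      · exact Or.inl ⟨h1, k2, hEq.trans h3 k3⟩
      · exact absurd h2 k1
      · exact absurd k1 h2
      · exact Or.inr ⟨h1, k2⟩
  -- a member and a nonmember of `A`
  obtain ⟨x0, hx0⟩ := hXne
  have hAm : A (join x0 y0) := ⟨by rw [evn_join]; exact hx0, by rw [odd_join]; exact hy0⟩
  have hAn : ¬ A (join O O) := fun h => hXO (by simpa using h.1)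
  refine ⟨F, ⟨hFeq, isHyp_iff.mpr hFD⟩, ⟨?_, ?_⟩, ?_, ?_⟩
  · -- `1` reduces to `F`
    refine ⟨fun _ => O, isHypFun_gf GF.zero, fun x y => ?_⟩
    simp only [oneClass, true_iff]
    exact hFeq.refl _
  · -- `F` has two classes
    rintro ⟨f, _, hf⟩
    have h2 : F (join x0 y0) (join O O) := (hf _ _).mpr trivial
    rcases h2 with ⟨_, h3, _⟩ | ⟨h3, _⟩
    · exact hAn h3
    · exact h3 hAm
  · -- `F` reduces to `E`
    let g : (ℕ → ℕ) → (ℕ → ℕ) := fun p => if A p then evn p else O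
    have hg : S11 (fun r : (ℕ → ℕ) × (ℕ → ℕ) => g r.1 = r.2) := by
      have h2 : S11 (fun r : (ℕ → ℕ) × (ℕ → ℕ) =>
          (A r.1 ∧ evn r.1 = r.2) ∨ (¬ A r.1 ∧ O = r.2)) :=
        ((hAD.comp GF.fst).1.and (S11.cl (Cl_eq (GF.evn GF.fst) GF.snd))).or
          ((hAD.comp GF.fst).2.and (S11.cl (Cl_eq GF.zero GF.snd)))
      refine h2.of_iff fun r => ?_
      by_cases hr : A r.1
      · simp [g, hr]
      · simp [g, hr]
    refine ⟨g, isHypFun_of hg, fun p q => ?_⟩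
    by_cases hp : A p <;> by_cases hq : A q
    · simp [F, g, hp, hq]
    · simp only [F, g, hp, hq, if_true, if_false, false_and, and_false, or_false, false_iff,
        not_false_eq_true, not_true_eq_false]
      exact hp.1
    · simp only [F, g, hp, hq, if_true, if_false, false_and, and_false, or_false, false_iff,
        not_false_eq_true, not_true_eq_false, true_and]
      exact fun h => hq.1 (hEq.symm h)
    · simp only [F, g, hp, hq, if_false, false_and, false_or, not_false_eq_true, and_self,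
        true_iff]
      exact hEq.refl _
  · -- `E` does not reduce to `F`
    rintro ⟨f, hf, hred⟩
    have hfs := s11_graph hf
    by_cases hO : A (f O)
    · -- then `f O` computes an element of `Y`
      have hc : S11 (fun p : (ℕ → ℕ) × (ℕ → ℕ) => (fun _ : ℕ → ℕ => odd (f O)) p.1 = p.2) := by
        have h2 : S11 (fun q : ((ℕ → ℕ) × (ℕ → ℕ)) × (ℕ → ℕ) => f O = q.2 ∧ odd q.2 = q.1.2) :=
          (hfs.comp (F := fun q : ((ℕ → ℕ) × (ℕ → ℕ)) × (ℕ → ℕ) => (O, q.2))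
            (GF.pair GF.zero GF.snd)).and
            (S11.cl (Cl_eq (GF.odd GF.snd) (GF.snd.comp GF.fst)))
        refine (S11.exR h2).of_iff fun p => ?_
        constructor
        · intro h
          exact ⟨_, rfl, h⟩
        · rintro ⟨y, e, h⟩
          simp only at e h ⊢
          rw [e]
          exact h
      obtain ⟨x, _, hx⟩ := hY (fun _ => odd (f O)) hc
      exact hx hO.2
    · -- then `f` maps `X` into `A`
      have hc : S11 (fun p : (ℕ → ℕ) × (ℕ → ℕ) => (fun x : ℕ → ℕ => odd (f x)) p.1 = p.2) := by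
        have h2 : S11 (fun q : ((ℕ → ℕ) × (ℕ → ℕ)) × (ℕ → ℕ) =>
            f q.1.1 = q.2 ∧ odd q.2 = q.1.2) :=
          (hfs.comp (F := fun q : ((ℕ → ℕ) × (ℕ → ℕ)) × (ℕ → ℕ) => (q.1.1, q.2))
            (GF.pair (GF.fst.comp GF.fst) GF.snd)).and
            (S11.cl (Cl_eq (GF.odd GF.snd) (GF.snd.comp GF.fst)))
        refine (S11.exR h2).of_iff fun p => ?_
        constructor
        · intro h
          exact ⟨_, rfl, h⟩
        · rintro ⟨y, e, h⟩
          simp only at e h ⊢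
          rw [e]
          exact h
      obtain ⟨x, hXx, hx⟩ := hY (fun x => odd (f x)) hc
      apply hx
      have h3 : ¬ F (f x) (f O) := fun h => hXx ((hred _ _).mpr h)
      by_contra h4
      apply h3
      refine Or.inr ⟨fun h5 => h4 h5.2, hO⟩

/-- There is no minimal degree of Hyp equivalence relations on the reals under Hyp reducibility. -/
theorem result : ¬ ∃ E, IsMinimal E := by
  rintro ⟨E, hE, h1, h2⟩
  exact h2 (exists_between E hE h1)

end Pool.Agent.Results.MP_ae071c_lc.NoMinimalDegree
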